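import Pool.Agent.NH90.CN.All

set_option autoImplicit false

open Pool.Agent.Helper770.Crossing Pool.Agent.NH90.CN

namespace Pool.Agent.Results.MP_9ec9ec_co.OrderOfMagnitude

/-- Crossing number increase under coning. `crossingNumber` is the least number of crossings over
all drawings in the plane (`Pool.Agent.Helper770.Crossing`), `cone G` is `G` with a new vertex
`none` joined to all vertices. For every finite simple graph `G` with `k = cr(G)` the increase
`t = cr(Cone(G)) - cr(G)` satisfies `k ≤ max(6, 3 t^(1/3)) t`, and so `t ≥ (k/3)^(3/4)`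
as soon as `k ≥ 43`. -/
theorem result {V : Type} [Fintype V] (G : SimpleGraph V) :
    ∃ t : ℕ, crossingNumber (cone G) = crossingNumber G + t ∧
      (crossingNumber G : ℝ) ≤ max 6 (3 * (t : ℝ) ^ ((1 : ℝ) / 3)) * t ∧
      (43 ≤ crossingNumber G → ((crossingNumber G : ℝ) / 3) ^ ((3 : ℝ) / 4) ≤ t) := by
  obtain ⟨t, h1, h2⟩ := p_FIN V G
  exact ⟨t, h1, h2, order_of_magnitude h2⟩

end Pool.Agent.Results.MP_9ec9ec_co.OrderOfMagnitude
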